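import Pool.Agent.Lib.Pabcx.MidCore
import Pool.Agent.Lib.Pabcv.FinalA

/-!
# The count of abc triples with `Y^(1/3+e) ≤ c ≤ Y^K`
-/

namespace Pool.Agent.Lib.Pabcx

open Finset Pool.Agent.Lib.Pabcv

theorem midSet_card_le (e K : ℝ) (he : 0 < e) (he1 : e ≤ 1 / 10) (hK : 1 ≤ K) :
    ∃ Y0 : ℝ, ∀ Y : ℝ, Y0 ≤ Y → ((midSet e K Y).card : ℝ) ≤ Y ^ (2 / 3 - e / 300) := by
  classical
  obtain ⟨C, Y1, hC1, hC⟩ := midCell_card e K he he1 hK
  set η : ℝ := e / 10000 with hη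
  have hη0 : 0 < η := by rw [hη]; positivity
  set N : ℕ := ⌈1 / η⌉₊ + 2 with hN
  have hN0 : 0 < (N : ℝ) := by rw [hN]; positivity
  set Ct : ℝ := (N : ℝ) ^ 3 * C with hCt
  have hCt0 : 0 < Ct := by positivity
  set ε : ℝ := e / 290 - e / 300 with hε
  have hε0 : 0 < ε := by rw [hε]; linarith
  refine ⟨max (max 2 Y1) (Ct ^ (1 / ε)), ?_⟩
  intro Y hY
  have hY2 : 2 ≤ Y := (le_max_left _ _).trans ((le_max_left _ _).trans hY)
  have hYY1 : Y1 ≤ Y := (le_max_right _ _).trans ((le_max_left _ _).trans hY)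
  have hY1 : 1 < Y := by linarith
  have hY0 : 0 < Y := by linarith
  have hlogY : 0 < Real.log Y := Real.log_pos hY1
  have hYC : Ct ≤ Y ^ ε := by
    have h1 : Ct ^ (1 / ε) ≤ Y := (le_max_right _ _).trans hY
    have h2 : Ct = (Ct ^ (1 / ε)) ^ ε := by
      rw [← Real.rpow_mul hCt0.le]
      rw [show 1 / ε * ε = 1 by field_simp, Real.rpow_one]
    rw [h2]
    exact Real.rpow_le_rpow (by positivity) h1 hε0.le
  set T : Finset (ℕ × ℕ × ℕ) := range N ×ˢ (range N ×ˢ range N) with hT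
  set f : ℕ × ℕ × ℕ → ℕ × ℕ × ℕ := fun t =>
    (cell η Y (rad t.1), cell η Y (rad t.2.1), cell η Y (rad t.2.2)) with hf
  have hcl : ∀ r : ℕ, 1 ≤ r → (r : ℝ) ≤ Y → cell η Y r < N := by
    intro r hr hrY
    have h1 := cell_le hη0 hY1 hr
    have h2 : Real.log r / Real.log Y ≤ 1 := by
      rw [div_le_one hlogY]
      exact Real.log_le_log (by exact_mod_cast hr) hrY
    have h3 : (cell η Y r : ℝ) ≤ 1 / η + 1 := by
      rw [← mul_le_mul_iff_right₀ hη0]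
      calc η * (cell η Y r : ℝ) ≤ 1 + η := by linarith
        _ = η * (1 / η + 1) := by field_simp
    have h4 : (cell η Y r : ℝ) ≤ ((⌈1 / η⌉₊ + 1 : ℕ) : ℝ) := by
      push_cast
      have := Nat.le_ceil (1 / η)
      linarith
    have h5 : cell η Y r ≤ ⌈1 / η⌉₊ + 1 := by exact_mod_cast h4
    omega
  have hmaps : ∀ t ∈ midSet e K Y, f t ∈ T := by
    rintro ⟨x, y, n⟩ ht
    rw [midSet] at ht
    have hr := (mem_filter.1 ht).2.2.2.2.1
    simp only at hr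
    have h3 := three_le_prod (rad_pos x) (rad_pos y) (rad_pos n)
    simp only [hT, hf, mem_product, mem_range]
    refine ⟨hcl _ (rad_pos _) (le_trans (by exact_mod_cast h3.1) hr),
      hcl _ (rad_pos _) (le_trans (by exact_mod_cast h3.2.1) hr),
      hcl _ (rad_pos _) (le_trans (by exact_mod_cast h3.2.2) hr)⟩
  have h1 : (midSet e K Y).card = ∑ c ∈ T, ((midSet e K Y).filter (fun t => f t = c)).card :=
    Finset.card_eq_sum_card_fiberwise hmaps
  have h2 : ((midSet e K Y).card : ℝ) ≤ ∑ c ∈ T, C * Y ^ (2 / 3 - e / 290) := by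
    rw [h1]
    push_cast
    refine Finset.sum_le_sum fun c _ => ?_
    have h3 := hC Y hYY1 c
    rw [midCell] at h3
    convert h3 using 3
  have h3 : (T.card : ℝ) = (N : ℝ) ^ 3 := by
    rw [hT, Finset.card_product, Finset.card_product, Finset.card_range, Nat.cast_mul,
      Nat.cast_mul]
    ring
  calc ((midSet e K Y).card : ℝ) ≤ ∑ c ∈ T, C * Y ^ (2 / 3 - e / 290) := h2
    _ = Ct * Y ^ (2 / 3 - e / 290) := by
        rw [Finset.sum_const, nsmul_eq_mul, h3, hCt, mul_assoc]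
    _ ≤ Y ^ ε * Y ^ (2 / 3 - e / 290) := by gcongr
    _ = Y ^ (2 / 3 - e / 300) := by
        rw [← Real.rpow_add hY0, hε]
        congr 1
        ring

/-- The abc triples with `rad (abc) ≤ Y`, `Y ^ (1/3+e) ≤ c ≤ Y ^ K`. -/
def midTriples (e K Y : ℝ) : Set (ℕ × ℕ × ℕ) :=
  {t | AbcTriple t.1 t.2.1 t.2.2 ∧ (rad (t.1 * t.2.1 * t.2.2) : ℝ) ≤ Y ∧
    Y ^ (1 / 3 + e) ≤ t.2.2 ∧ (t.2.2 : ℝ) ≤ Y ^ K}

theorem midTriples_subset (e K Y : ℝ) : midTriples e K Y ⊆ (midSet e K Y : Set (ℕ × ℕ × ℕ)) := by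
  classical
  rintro ⟨a, b, c⟩ ⟨⟨ha, hb, hc, hab, hac, hbc, habc⟩, hrad, hc1, hc2⟩
  simp only at ha hb hc hab hac hbc habc hrad hc1 hc2
  have hradm : rad (a * b * c) = rad a * rad b * rad c := by
    rw [rad_mul_coprime (Nat.Coprime.mul_left hac hbc), rad_mul_coprime hab]
  rw [hradm] at hrad
  have hac' : (a : ℝ) ≤ Y ^ K := by
    have : (a : ℝ) ≤ c := by exact_mod_cast (by omega : a ≤ c)
    exact this.trans hc2
  have hbc' : (b : ℝ) ≤ Y ^ K := by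
    have : (b : ℝ) ≤ c := by exact_mod_cast (by omega : b ≤ c)
    exact this.trans hc2
  rw [Finset.mem_coe, midSet, Finset.mem_filter, Finset.mem_product, Finset.mem_product,
    Finset.mem_Icc, Finset.mem_Icc, Finset.mem_Icc]
  exact ⟨⟨⟨ha, Nat.le_floor hac'⟩, ⟨hb, Nat.le_floor hbc'⟩, ⟨hc, Nat.le_floor hc2⟩⟩,
    habc, hac, hbc, hrad, hc1⟩

theorem midTriples_finite (e K Y : ℝ) : (midTriples e K Y).Finite :=
  (Finset.finite_toSet _).subset (midTriples_subset e K Y)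

/-- Explicit form: for `0 < e ≤ 1/10` the saving is `e / 300`. -/
theorem mid_card_le_explicit (e K : ℝ) (he : 0 < e) (he1 : e ≤ 1 / 10) (hK : 1 ≤ K) :
    ∃ Y0 : ℝ, ∀ Y : ℝ, Y0 ≤ Y → (midTriples e K Y).Finite ∧
      ((midTriples e K Y).ncard : ℝ) ≤ Y ^ (2 / 3 - e / 300) := by
  obtain ⟨Y0, hY0⟩ := midSet_card_le e K he he1 hK
  refine ⟨Y0, fun Y hY => ⟨midTriples_finite e K Y, ?_⟩⟩
  refine le_trans ?_ (hY0 Y hY)
  have h := Set.ncard_le_ncard (midTriples_subset e K Y) (Finset.finite_toSet _)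
  rw [Set.ncard_coe_finset] at h
  exact_mod_cast h

/-- For all `e > 0` and `K` there is `κ > 0` such that for large `Y` the number of abc triples
with `rad (abc) ≤ Y` and `Y ^ (1/3+e) ≤ c ≤ Y ^ K` is at most `Y ^ (2/3-κ)`. -/
theorem mid_card_le (e K : ℝ) (he : 0 < e) : ∃ κ : ℝ, 0 < κ ∧ ∃ Y0 : ℝ, ∀ Y : ℝ, Y0 ≤ Y →
    (midTriples e K Y).Finite ∧ ((midTriples e K Y).ncard : ℝ) ≤ Y ^ (2 / 3 - κ) := by
  set e' : ℝ := min e (1 / 10) with he'
  set K' : ℝ := max K 1 with hK'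
  have he'0 : 0 < e' := lt_min he (by norm_num)
  obtain ⟨Y0, hY0⟩ := mid_card_le_explicit e' K' he'0 (min_le_right _ _) (le_max_right _ _)
  refine ⟨e' / 300, by positivity, max 1 Y0, fun Y hY => ⟨midTriples_finite e K Y, ?_⟩⟩
  have hY1 : 1 ≤ Y := (le_max_left _ _).trans hY
  obtain ⟨hfin, hle⟩ := hY0 Y ((le_max_right _ _).trans hY)
  refine le_trans ?_ hle
  have hsub : midTriples e K Y ⊆ midTriples e' K' Y := by
    rintro ⟨a, b, c⟩ ⟨h1, h2, h3, h4⟩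
    refine ⟨h1, h2, le_trans ?_ h3, h4.trans ?_⟩
    · apply Real.rpow_le_rpow_of_exponent_le hY1
      have := min_le_left e (1 / 10)
      linarith
    · exact Real.rpow_le_rpow_of_exponent_le hY1 (le_max_left _ _)
  exact_mod_cast Set.ncard_le_ncard hsub hfin

end Pool.Agent.Lib.Pabcx
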