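import Pool.Agent.Lib.Pabcv.Split

/-!
# Powerful divisors of controlled size
-/

namespace Pool.Agent.Lib.Pabcx

open Finset Pool.Agent.Lib.Pabcv

/-- `n` is powerful: every prime divisor divides it twice. -/
def Pow2 (n : ℕ) : Prop := ∀ p : ℕ, p.Prime → p ∣ n → p ^ 2 ∣ n

theorem Pow2.rad_sq_le {n : ℕ} (h : Pow2 n) (hn : 1 ≤ n) : rad n ^ 2 ≤ n := by
  have hn0 : n ≠ 0 := by omega
  conv_rhs => rw [← Nat.prod_factorization_pow_eq_self hn0]
  rw [Finsupp.prod, Nat.support_factorization, rad, ← Finset.prod_pow]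
  refine Finset.prod_le_prod' fun p hp => ?_
  have hpp := Nat.prime_of_mem_primeFactors hp
  have h1 := h p hpp (Nat.dvd_of_mem_primeFactors hp)
  have h2 := (hpp.pow_dvd_iff_le_factorization hn0).1 h1
  exact Nat.pow_le_pow_right hpp.pos h2

/-- Dividing a powerful number by a prime which divides it three times. -/
theorem Pow2.div_prime {n p m : ℕ} (h : Pow2 n) (hp : p.Prime) (hm : n = p * m)
    (hp3 : p ^ 2 ∣ m) : Pow2 m := by
  intro q hq hqm
  by_cases hqp : q = p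
  · rw [hqp]; exact hp3
  · have h1 : q ^ 2 ∣ n := h q hq (hm ▸ hqm.mul_left p)
    rw [hm] at h1
    have h2 : Nat.Coprime (q ^ 2) p := by
      apply Nat.Coprime.pow_left
      exact (Nat.coprime_primes hq hp).2 hqp
    exact h2.dvd_of_dvd_mul_left h1

/-- Dividing a powerful number by the exact square of a prime. -/
theorem Pow2.div_sq {n p m : ℕ} (h : Pow2 n) (hp : p.Prime) (hm : n = p ^ 2 * m)
    (hpm : ¬ p ∣ m) : Pow2 m := by
  intro q hq hqm
  have hqp : q ≠ p := fun e => hpm (e ▸ hqm)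
  have h1 : q ^ 2 ∣ n := h q hq (hm ▸ hqm.mul_left _)
  rw [hm] at h1
  have h2 : Nat.Coprime (q ^ 2) (p ^ 2) := by
    apply Nat.Coprime.pow
    exact (Nat.coprime_primes hq hp).2 hqp
  exact h2.dvd_of_dvd_mul_left h1

open SplitAux in
/-- The powerful part. -/
theorem exists_pow2_part {n : ℕ} (hn : 1 ≤ n) {T : ℝ} (hT : T * rad n ≤ n) (hT0 : 0 ≤ T) :
    ∃ m : ℕ, m ∣ n ∧ Pow2 m ∧ T ≤ m := by
  classical
  have hn0 : n ≠ 0 := by omega
  set S := n.primeFactors.filter (fun p => 2 ≤ n.factorization p) with hS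
  have hSs : S ⊆ n.primeFactors := Finset.filter_subset _ _
  have h1 := part_mul n hn0 S hSs
  have h2 := SplitAux.rad_mul n S hSs
  have h3 : part n (n.primeFactors \ S) = ∏ p ∈ n.primeFactors \ S, p := by
    rw [part]
    refine Finset.prod_congr rfl fun p hp => ?_
    rw [Finset.mem_sdiff, hS, Finset.mem_filter] at hp
    have h4 : ¬ 2 ≤ n.factorization p := fun h => hp.2 ⟨hp.1, h⟩
    have h5 : n.factorization p ≠ 0 := by
      have h6 : p ∈ n.factorization.support := by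
        rw [Nat.support_factorization]; exact hp.1
      exact Finsupp.mem_support_iff.1 h6
    rw [show n.factorization p = 1 by omega, pow_one]
  refine ⟨part n S, ⟨_, h1.symm⟩, ?_, ?_⟩
  · intro p hp hpm
    have h4 : part n S ≠ 0 := by
      intro h; rw [h, zero_mul] at h1; exact hn0 h1.symm
    have h5 : p ∈ S := by
      rw [← primeFactors_part n S hSs]
      exact Nat.mem_primeFactors.2 ⟨hp, hpm, h4⟩
    have h6 : p ^ n.factorization p ∣ part n S :=
      Finset.dvd_prod_of_mem (fun q => q ^ n.factorization q) h5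
    rw [hS, Finset.mem_filter] at h5
    exact (pow_dvd_pow p h5.2).trans h6
  · rw [h3] at h1
    have h5 : (0 : ℝ) < ∏ p ∈ n.primeFactors \ S, (p : ℝ) := by
      refine Finset.prod_pos fun p hp => ?_
      have := (Nat.prime_of_mem_primeFactors (Finset.mem_sdiff.1 hp).1).pos
      exact_mod_cast this
    have h6 : (1 : ℝ) ≤ ∏ p ∈ S, (p : ℝ) := by
      have h : 1 ≤ ∏ p ∈ S, p := Finset.prod_pos fun p hp =>
        (Nat.prime_of_mem_primeFactors (hSs hp)).pos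
      have h' : ((1 : ℕ) : ℝ) ≤ ((∏ p ∈ S, p : ℕ) : ℝ) := Nat.cast_le.2 h
      rw [Nat.cast_one, Nat.cast_prod] at h'
      exact h'
    have h7 : (rad n : ℝ) = (∏ p ∈ S, (p : ℝ)) * ∏ p ∈ n.primeFactors \ S, (p : ℝ) := by
      rw [← h2]; push_cast; rfl
    have h8 : (n : ℝ) = (part n S : ℝ) * ∏ p ∈ n.primeFactors \ S, (p : ℝ) := by
      conv_lhs => rw [← h1]
      push_cast; rfl
    rw [h7, h8, ← mul_assoc] at hT
    have h9 := le_of_mul_le_mul_right hT h5
    nlinarith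

/-- A powerful divisor of controlled size, if all primes with square dividing `n` are small. -/
theorem exists_pow2_divisor {n : ℕ} (hn : 1 ≤ n) {S T : ℝ} (hS : 1 ≤ S) (hT : 1 ≤ T)
    (hnT : T * rad n ≤ n) (hp : ∀ p : ℕ, p.Prime → p ^ 2 ∣ n → (p : ℝ) ≤ S) :
    ∃ m : ℕ, m ∣ n ∧ Pow2 m ∧ T ≤ m ∧ (m : ℝ) ≤ T * S ^ 2 := by
  classical
  obtain ⟨m0, hm0⟩ := exists_pow2_part hn hnT (by linarith)
  have hex : ∃ m : ℕ, m ∣ n ∧ Pow2 m ∧ T ≤ (m : ℝ) := ⟨m0, hm0⟩
  obtain ⟨m, ⟨h1, h2, h3⟩, hmin⟩ : ∃ m : ℕ, (m ∣ n ∧ Pow2 m ∧ T ≤ (m : ℝ)) ∧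
      ∀ m' : ℕ, m' < m → m' ∣ n → Pow2 m' → (m' : ℝ) < T := by
    refine ⟨Nat.find hex, Nat.find_spec hex, ?_⟩
    intro m' hlt hd hq
    by_contra hcon
    exact Nat.find_min hex hlt ⟨hd, hq, not_lt.1 hcon⟩
  have hS0 : 0 < S := by linarith
  have hT0 : 0 < T := by linarith
  refine ⟨m, h1, h2, h3, ?_⟩
  have hS2 : 1 ≤ S ^ 2 := one_le_pow₀ hS
  have hm1 : 1 ≤ m := by
    have : (1 : ℝ) ≤ m := hT.trans h3
    exact_mod_cast this
  rcases Nat.eq_or_lt_of_le hm1 with h4 | h4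
  · rw [← h4]; push_cast; nlinarith
  · obtain ⟨p, hpp, hpm⟩ := Nat.exists_prime_and_dvd (show m ≠ 1 by omega)
    have hp2 : p ^ 2 ∣ m := h2 p hpp hpm
    have hpS : (p : ℝ) ≤ S := hp p hpp (hp2.trans h1)
    have hp1 : (2 : ℝ) ≤ p := by exact_mod_cast hpp.two_le
    obtain ⟨m', hm'⟩ := hp2
    by_cases hpm' : p ∣ m'
    · obtain ⟨m'', hm''⟩ := hpm'
      have e1 : m = p * (p * m') := by rw [hm']; ring
      have h5 : Pow2 (p * m') := h2.div_prime hpp e1 ⟨m'', by rw [hm'']; ring⟩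
      have h6 : 0 < p * m' := Nat.pos_of_ne_zero (by rintro h; rw [h, mul_zero] at e1; omega)
      have h7 : p * m' < m := by
        rw [e1]; exact (Nat.lt_mul_iff_one_lt_left h6).2 hpp.one_lt
      have h8 := hmin _ h7 (Dvd.dvd.trans ⟨p, by rw [e1]; ring⟩ h1) h5
      have e2 : (m : ℝ) = p * ((p * m' : ℕ) : ℝ) := by rw [e1]; push_cast; ring
      rw [e2]
      calc (p : ℝ) * ((p * m' : ℕ) : ℝ) ≤ S * T := by gcongr
        _ ≤ T * S ^ 2 := by nlinarith [mul_nonneg (sub_nonneg.2 hS) (by positivity : 0 ≤ S * T)]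
    · have h5 : Pow2 m' := h2.div_sq hpp hm' hpm'
      have h6 : 0 < m' := Nat.pos_of_ne_zero (by rintro h; rw [h, mul_zero] at hm'; omega)
      have h7 : m' < m := by
        rw [hm']
        exact (Nat.lt_mul_iff_one_lt_left h6).2 (one_lt_pow₀ hpp.one_lt (by norm_num))
      have h8 := hmin _ h7 (Dvd.dvd.trans ⟨p ^ 2, by rw [hm']; ring⟩ h1) h5
      have e2 : (m : ℝ) = (p : ℝ) ^ 2 * (m' : ℝ) := by rw [hm']; push_cast; ring
      rw [e2]
      calc (p : ℝ) ^ 2 * (m' : ℝ) ≤ S ^ 2 * T := by gcongr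
        _ = T * S ^ 2 := by ring

end Pool.Agent.Lib.Pabcx
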