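import Pool.Agent.Lib.Pabcx.RadG
import Pool.Agent.Lib.Pabcx.Powerful
import Pool.Agent.Lib.Pabcv.Core

/-!
# The count of abc triples with `Y^(1/3+e) ≤ c ≤ Y^K`, one cell
-/

namespace Pool.Agent.Lib.Pabcx

open Finset Pool.Agent.Lib.Pabcv

open Classical in
/-- The triples `(x, y, n)` of `[1, ⌊Y^K⌋]³` with `n = x + y`, `n` coprime to `x` and `y`,
`rad x * rad y * rad n ≤ Y`, `n ≥ Y^(1/3+e)`. -/
noncomputable def midSet (e K Y : ℝ) : Finset (ℕ × ℕ × ℕ) :=
  (Finset.Icc 1 ⌊Y ^ K⌋₊ ×ˢ (Finset.Icc 1 ⌊Y ^ K⌋₊ ×ˢ Finset.Icc 1 ⌊Y ^ K⌋₊)).filter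
    (fun t : ℕ × ℕ × ℕ => t.1 + t.2.1 = t.2.2 ∧ t.1.Coprime t.2.2 ∧ t.2.1.Coprime t.2.2 ∧
      ((rad t.1 * rad t.2.1 * rad t.2.2 : ℕ) : ℝ) ≤ Y ∧ Y ^ (1 / 3 + e) ≤ t.2.2)

open Classical in
/-- The part of `midSet` in the cell `c`. -/
noncomputable def midCell (e K η Y : ℝ) (c : ℕ × ℕ × ℕ) : Finset (ℕ × ℕ × ℕ) :=
  (midSet e K Y).filter (fun t : ℕ × ℕ × ℕ =>
    (cell η Y (rad t.1), cell η Y (rad t.2.1), cell η Y (rad t.2.2)) = c)

theorem mem_midCell {e K η Y : ℝ} {c t : ℕ × ℕ × ℕ} (h : t ∈ midCell e K η Y c) :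
    ((1 ≤ t.1 ∧ t.1 ≤ ⌊Y ^ K⌋₊) ∧ (1 ≤ t.2.1 ∧ t.2.1 ≤ ⌊Y ^ K⌋₊) ∧
      (1 ≤ t.2.2 ∧ t.2.2 ≤ ⌊Y ^ K⌋₊)) ∧
    t.1 + t.2.1 = t.2.2 ∧ t.1.Coprime t.2.2 ∧ t.2.1.Coprime t.2.2 ∧
      ((rad t.1 * rad t.2.1 * rad t.2.2 : ℕ) : ℝ) ≤ Y ∧ Y ^ (1 / 3 + e) ≤ t.2.2 ∧
    cell η Y (rad t.1) = c.1 ∧ cell η Y (rad t.2.1) = c.2.1 ∧ cell η Y (rad t.2.2) = c.2.2 := by
  classical
  simp only [midCell, mem_filter, midSet, mem_product, mem_Icc] at h
  obtain ⟨⟨⟨h1, h2, h3⟩, h4⟩, h5⟩ := h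
  obtain ⟨c1, c2, c3⟩ := c
  simp only [Prod.mk.injEq] at h5
  exact ⟨⟨h1, h2, h3⟩, h4.1, h4.2.1, h4.2.2.1, h4.2.2.2.1, h4.2.2.2.2, h5.1, h5.2.1, h5.2.2⟩

theorem cell_sum_le' {η Y : ℝ} (hη : 0 < η) (hY : 1 < Y) {a b c : ℕ} (ha : 1 ≤ a) (hb : 1 ≤ b)
    (hc : 1 ≤ c) (h : ((a * b * c : ℕ) : ℝ) ≤ Y) :
    η * (cell η Y a : ℝ) + η * (cell η Y b : ℝ) + η * (cell η Y c : ℝ) ≤ 1 + 3 * η := by
  have hl : 0 < Real.log Y := Real.log_pos hY
  have e1 := cell_le hη hY ha
  have e2 := cell_le hη hY hb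
  have e3 := cell_le hη hY hc
  have ha0 : (0 : ℝ) < a := by exact_mod_cast ha
  have hb0 : (0 : ℝ) < b := by exact_mod_cast hb
  have hc0 : (0 : ℝ) < c := by exact_mod_cast hc
  have h2 : Real.log a + Real.log b + Real.log c ≤ Real.log Y := by
    rw [← Real.log_mul ha0.ne' hb0.ne', ← Real.log_mul (by positivity) hc0.ne']
    apply Real.log_le_log (by positivity)
    push_cast at h
    exact h
  have h3 : Real.log a / Real.log Y + Real.log b / Real.log Y + Real.log c / Real.log Y ≤ 1 := by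
    rw [← add_div, ← add_div, div_le_one hl]
    exact h2
  linarith

/-- The count in one cell. -/
theorem midCell_card (e K : ℝ) (he : 0 < e) (he1 : e ≤ 1 / 10) (hK : 1 ≤ K) :
    ∃ C Y0 : ℝ, 1 ≤ C ∧ ∀ Y : ℝ, Y0 ≤ Y → ∀ c : ℕ × ℕ × ℕ,
      ((midCell e K (e / 10000) Y c).card : ℝ) ≤ C * Y ^ (2 / 3 - e / 290) := by
  classical
  have hK0 : 0 < K := by linarith
  set δ : ℝ := e / 100000 with hδ
  have hδ0 : 0 < δ := by rw [hδ]; positivity
  set η : ℝ := e / 10000 with hη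
  have hη0 : 0 < η := by rw [hη]; positivity
  obtain ⟨C1, hC11, hC1⟩ := radSet_card_pow K δ hK0 hδ0
  obtain ⟨C2, Y2, hC21, hC2⟩ := alphaPairsG K δ hK0 hδ0
  obtain ⟨C3, hC31, hC3⟩ := curvePairs_card K δ hK0 hδ0
  have hlog2 : 0 < Real.log 2 := Real.log_pos (by norm_num)
  set C4 : ℝ := K / (δ * Real.log 2) with hC4
  have hC40 : 0 < C4 := by positivity
  set N : ℕ := ⌈1 / η⌉₊ + 2 with hN
  have hN0 : 0 < (N : ℝ) := by rw [hN]; positivity
  set Ct : ℝ := 3 * C1 ^ 2 + 3 * C2 + N * (3 * (C2 + C3 * C4)) with hCt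
  have hCt1 : 1 ≤ Ct := by
    have h1 : 0 < C1 ^ 2 := by positivity
    have h2 : 0 < C3 * C4 := by positivity
    have h3 : 0 < N * (3 * (C2 + C3 * C4)) := by positivity
    rw [hCt]
    nlinarith
  refine ⟨Ct, max 2 Y2, hCt1, ?_⟩
  intro Y hY c
  have hY2 : 2 ≤ Y := (le_max_left _ _).trans hY
  have hYY2 : Y2 ≤ Y := (le_max_right _ _).trans hY
  have hY1 : 1 < Y := by linarith
  have hY1' : 1 ≤ Y := by linarith
  have hY0 : 0 < Y := by linarith
  have hlogY : 0 < Real.log Y := Real.log_pos hY1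
  set X : ℕ := ⌊Y ^ K⌋₊ with hX
  have hXle : (X : ℝ) ≤ Y ^ K := rpow_floor_le hY0.le
  set θ : ℝ := 2 / 3 - e / 290 with hθ
  set Q := midCell e K η Y c with hQ
  rcases Q.eq_empty_or_nonempty with hQe | ⟨q0, hq0⟩
  · rw [hQe]
    simp only [card_empty, Nat.cast_zero]
    positivity
  set u1 : ℝ := η * c.1 with hu1
  set u2 : ℝ := η * c.2.1 with hu2
  set u3 : ℝ := η * c.2.2 with hu3
  have hu10 : 0 ≤ u1 := by positivity
  have hu20 : 0 ≤ u2 := by positivity
  have hu30 : 0 ≤ u3 := by positivity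
  have hmem : ∀ t ∈ Q, t.1 ∈ radSet X (Y ^ u1) ∧ t.2.1 ∈ radSet X (Y ^ u2) ∧
      t.2.2 ∈ radSet X (Y ^ u3) := by
    intro t ht
    obtain ⟨⟨h1, h2, h3⟩, -, -, -, -, -, hc1, hc2, hc3⟩ := mem_midCell ht
    refine ⟨mem_radSet.2 ⟨h1, ?_⟩, mem_radSet.2 ⟨h2, ?_⟩, mem_radSet.2 ⟨h3, ?_⟩⟩
    · rw [hu1, ← hc1]; exact le_rpow_cell hη0 hY1 (rad_pos _)
    · rw [hu2, ← hc2]; exact le_rpow_cell hη0 hY1 (rad_pos _)
    · rw [hu3, ← hc3]; exact le_rpow_cell hη0 hY1 (rad_pos _)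
  have hRel : ∀ t ∈ Q, Rel t.1 t.2.1 t.2.2 := fun t ht => Or.inl (mem_midCell ht).2.1
  -- constraints
  obtain ⟨-, -, -, -, hr3, -, hc1, hc2, hc3⟩ := mem_midCell hq0
  have hsum : u1 + u2 + u3 ≤ 1 + 3 * η := by
    rw [hu1, hu2, hu3, ← hc1, ← hc2, ← hc3]
    exact cell_sum_le' hη0 hY1 (rad_pos _) (rad_pos _) (rad_pos _) hr3
  have hpair : ∀ a b : ℝ, a + b ≤ 2 / 3 - e / 280 →
      ((radSet X (Y ^ a) ×ˢ radSet X (Y ^ b)).card : ℝ) ≤ C1 ^ 2 * Y ^ θ := by
    intro a b hab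
    rw [Finset.card_product]
    push_cast
    calc ((radSet X (Y ^ a)).card : ℝ) * (radSet X (Y ^ b)).card
        ≤ (C1 * Y ^ (a + δ)) * (C1 * Y ^ (b + δ)) := by
          gcongr
          · exact hC1 Y a hY1'
          · exact hC1 Y b hY1'
      _ = C1 ^ 2 * (Y ^ (a + δ) * Y ^ (b + δ)) := by ring
      _ = C1 ^ 2 * Y ^ ((a + δ) + (b + δ)) := by rw [← Real.rpow_add hY0]
      _ ≤ _ := by
          apply mul_le_mul_of_nonneg_left _ (by positivity)
          apply Real.rpow_le_rpow_of_exponent_le hY1'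
          rw [hδ, hθ]; linarith
  have hYp : 0 < Y ^ θ := by positivity
  have hC34 : 0 < C3 * C4 := by positivity
  have hC1t : 3 * C1 ^ 2 ≤ Ct := by
    have h3 : 0 < N * (3 * (C2 + C3 * C4)) := by positivity
    rw [hCt]
    nlinarith
  rcases le_or_gt (u1 + u2) (2 / 3 - e / 280) with h12 | h12
  · have h1 := proj_card_xy Q hRel (radSet X (Y ^ u1) ×ˢ radSet X (Y ^ u2))
      (fun t ht => mem_product.2 ⟨(hmem t ht).1, (hmem t ht).2.1⟩)
    have h2 := hpair u1 u2 h12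
    calc (Q.card : ℝ) ≤ 3 * ((radSet X (Y ^ u1) ×ˢ radSet X (Y ^ u2)).card : ℝ) := by
          exact_mod_cast h1
      _ ≤ 3 * (C1 ^ 2 * Y ^ θ) := by gcongr
      _ = (3 * C1 ^ 2) * Y ^ θ := by ring
      _ ≤ _ := by gcongr
  rcases le_or_gt (u1 + u3) (2 / 3 - e / 280) with h13 | h13
  · have h1 := proj_card_xn Q hRel (radSet X (Y ^ u1) ×ˢ radSet X (Y ^ u3))
      (fun t ht => mem_product.2 ⟨(hmem t ht).1, (hmem t ht).2.2⟩)
    have h2 := hpair u1 u3 h13
    calc (Q.card : ℝ) ≤ 3 * ((radSet X (Y ^ u1) ×ˢ radSet X (Y ^ u3)).card : ℝ) := by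
          exact_mod_cast h1
      _ ≤ 3 * (C1 ^ 2 * Y ^ θ) := by gcongr
      _ = (3 * C1 ^ 2) * Y ^ θ := by ring
      _ ≤ _ := by gcongr
  rcases le_or_gt (u2 + u3) (2 / 3 - e / 280) with h23 | h23
  · have h1 := proj_card_yn Q hRel (radSet X (Y ^ u2) ×ˢ radSet X (Y ^ u3))
      (fun t ht => mem_product.2 ⟨(hmem t ht).2.1, (hmem t ht).2.2⟩)
    have h2 := hpair u2 u3 h23
    calc (Q.card : ℝ) ≤ 3 * ((radSet X (Y ^ u2) ×ˢ radSet X (Y ^ u3)).card : ℝ) := by
          exact_mod_cast h1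
      _ ≤ 3 * (C1 ^ 2 * Y ^ θ) := by gcongr
      _ = (3 * C1 ^ 2) * Y ^ θ := by ring
      _ ≤ _ := by gcongr
  -- the main case
  have hu1ge : 3 / 10 ≤ u1 := by linarith
  have hu2ge : 3 / 10 ≤ u2 := by linarith
  have hu1le : u1 ≤ 1 / 2 := by linarith
  have hu2le : u2 ≤ 1 / 2 := by linarith
  have hu3le : u3 ≤ 1 / 3 + e / 250 := by linarith
  set k0 : ℕ := ⌊K * Real.log Y / Real.log 2⌋₊ with hk0
  have hk0le : (k0 : ℝ) ≤ C4 * Y ^ δ := by
    have h1 : (k0 : ℝ) ≤ K * Real.log Y / Real.log 2 := Nat.floor_le (by positivity)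
    have h2 : Real.log Y ≤ Y ^ δ / δ := Real.log_le_rpow_div hY0.le hδ0
    calc (k0 : ℝ) ≤ K * Real.log Y / Real.log 2 := h1
      _ ≤ K * (Y ^ δ / δ) / Real.log 2 := by gcongr
      _ = C4 * Y ^ δ := by rw [hC4]; field_simp
  have hAl : ∀ σ ρ : ℝ, 0 < σ → σ ≤ 3 / 10 → ((alphaPairs K Y σ ρ u1 u2).card : ℝ) ≤
      C2 * Y ^ (ρ + (u1 + u2 + δ - 3 / 4 * σ) + 6 * δ) := by
    intro σ ρ h1 h2
    have h3 := hC2 Y hYY2 σ ρ u1 u2 _ _ hu10 hu20 (by linarith) (by linarith)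
      (lossOK_small (W := u1 + δ) h1 (by linarith)) (lossOK_small (W := u2 + δ) h1 (by linarith))
    refine h3.trans (le_of_eq ?_)
    congr 2
    ring
  have hCu : ∀ ρ : ℝ, ((curvePairs K Y ρ u1 u2 k0).card : ℝ) ≤
      C3 * k0 * Y ^ (ρ + max u2 (u1 + u2 / 2) + 4 * δ) := fun ρ => hC3 Y hY1' ρ u1 u2 k0
  set Q1 := Q.filter (fun t : ℕ × ℕ × ℕ =>
    (t.1, t.2.1) ∈ alphaPairs K Y (e / 2) (e / 4 + e / 40) u1 u2) with hQ1
  -- the modulus exponent of a prime square
  set sg : ℕ → ℝ := fun s => min (2 * (η * s) - 2 * η) (3 / 10) with hsg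
  set Q2 : ℕ → Finset (ℕ × ℕ × ℕ) := fun s => Q.filter (fun t : ℕ × ℕ × ℕ =>
    e / 40 ≤ η * s ∧ (t.1, t.2.1) ∈ alphaPairs K Y (sg s) (η * s) u1 u2 ∩
      curvePairs K Y (u3 - η * s + η) u1 u2 k0) with hQ2
  have hcover : Q ⊆ Q1 ∪ (range N).biUnion Q2 := by
    rintro ⟨x, y, n⟩ ht
    obtain ⟨⟨hx1, hy1, hn1⟩, hrel, hcx, hcy, hr3', hn, hcc1, hcc2, hcc3⟩ := mem_midCell ht
    obtain ⟨hmx, hmy, hmn⟩ := hmem _ ht
    simp only at hx1 hy1 hn1 hrel hcx hcy hr3' hn hcc1 hcc2 hcc3 hmx hmy hmn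
    have hRel' : Rel x y n := Or.inl hrel
    have hn2 : 2 ≤ n := by omega
    have hnX : (n : ℝ) ≤ X := by exact_mod_cast hn1.2
    have hradn : (rad n : ℝ) ≤ Y ^ u3 := (mem_radSet.1 hmn).2
    have hradnY : (rad n : ℝ) ≤ Y := by
      refine le_trans ?_ hr3'
      exact_mod_cast (three_le_prod (rad_pos x) (rad_pos y) (rad_pos n)).2.2
    have hnT : Y ^ (e / 2) * (rad n : ℝ) ≤ n := by
      refine le_trans ?_ hn
      calc Y ^ (e / 2) * (rad n : ℝ) ≤ Y ^ (e / 2) * Y ^ u3 := by gcongr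
        _ = Y ^ (e / 2 + u3) := by rw [← Real.rpow_add hY0]
        _ ≤ _ := by
            apply Real.rpow_le_rpow_of_exponent_le hY1'
            linarith
    rw [mem_union]
    by_cases hbig : ∃ p : ℕ, p.Prime ∧ p ^ 2 ∣ n ∧ Y ^ (e / 40) < (p : ℝ)
    · obtain ⟨p, hp, hp2, hpbig⟩ := hbig
      right
      rw [mem_biUnion]
      have hp1 : 1 ≤ p := hp.one_lt.le
      have hn0 : n ≠ 0 := by omega
      obtain ⟨k, w, hpw, hnw⟩ := Nat.exists_eq_pow_mul_and_not_dvd hn0 p hp.ne_one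
      have hw : 1 ≤ w := Nat.pos_of_ne_zero (by rintro rfl; rw [mul_zero] at hnw; exact hn0 hnw)
      have hk2 : 2 ≤ k := by
        by_contra hlt
        have h1 : n ∣ p * w := by
          rw [hnw]
          apply mul_dvd_mul_right
          have : k ≤ 1 := by omega
          calc p ^ k ∣ p ^ 1 := pow_dvd_pow p this
            _ = p := pow_one p
        have h2 : p ^ 2 ∣ p * w := hp2.trans h1
        rw [pow_two] at h2
        exact hpw (Nat.dvd_of_mul_dvd_mul_left hp.pos h2)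
      have hcopw : Nat.Coprime (p ^ k) w := Nat.Coprime.pow_left _ ((Nat.Prime.coprime_iff_not_dvd hp).2 hpw)
      have hrad : rad n = rad w * p := by
        rw [rad, rad, hnw, Nat.Coprime.primeFactors_mul hcopw,
          Finset.prod_union hcopw.disjoint_primeFactors,
          Nat.primeFactors_prime_pow (by omega) hp, Finset.prod_singleton, mul_comm]
      have hprad : p ≤ rad n := by
        rw [hrad]; exact Nat.le_mul_of_pos_left _ (rad_pos w)
      have hpY : (p : ℝ) ≤ Y := le_trans (by exact_mod_cast hprad) hradnY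
      refine ⟨cell η Y p, ?_, ?_⟩
      · rw [mem_range]
        have h1 := cell_le hη0 hY1 hp1
        have h2 : Real.log p / Real.log Y ≤ 1 := by
          rw [div_le_one hlogY]
          exact Real.log_le_log (by exact_mod_cast hp1) hpY
        have h3 : (cell η Y p : ℝ) ≤ 1 / η + 1 := by
          rw [← mul_le_mul_iff_right₀ hη0]
          calc η * (cell η Y p : ℝ) ≤ 1 + η := by linarith
            _ = η * (1 / η + 1) := by field_simp
        have h4 : (cell η Y p : ℝ) ≤ ((⌈1 / η⌉₊ + 1 : ℕ) : ℝ) := by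
          push_cast
          have := Nat.le_ceil (1 / η)
          linarith
        have h5 : cell η Y p ≤ ⌈1 / η⌉₊ + 1 := by exact_mod_cast h4
        omega
      · simp only [hQ2]
        rw [mem_filter]
        refine ⟨ht, ?_⟩
        rw [mem_inter]
        have hpkn : p ^ k ∣ n := ⟨w, hnw⟩
        have hwn : w ∣ n := ⟨p ^ k, by rw [hnw]; ring⟩
        have hlow := rpow_cell_sub_le hη0 hY1 hp1
        refine ⟨?_, ?_, ?_⟩
        · have h1 : Y ^ (e / 40) < Y ^ (η * (cell η Y p : ℝ)) :=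
            hpbig.trans_le (le_rpow_cell hη0 hY1 hp1)
          exact ((Real.rpow_lt_rpow_left_iff hY1).1 h1).le
        · rw [mem_alphaPairs]
          refine ⟨p ^ 2, ?_, ?_, mem_pairSet_of_dvd hmx hmy hRel' hcx hp2⟩
          · rw [mem_radSet]
            refine ⟨⟨Nat.one_le_pow _ _ hp1, (Nat.le_of_dvd (by omega) hp2).trans hn1.2⟩, ?_⟩
            rw [rad_prime_pow hp (by norm_num)]
            exact le_rpow_cell hη0 hY1 hp1
          · calc Y ^ (sg (cell η Y p)) ≤ Y ^ (2 * (η * (cell η Y p : ℝ)) - 2 * η) := by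
                  apply Real.rpow_le_rpow_of_exponent_le hY1'
                  rw [hsg]
                  exact min_le_left _ _
              _ = (Y ^ (η * (cell η Y p : ℝ) - η)) ^ 2 := by
                  rw [← Real.rpow_natCast, ← Real.rpow_mul hY0.le]
                  congr 1
                  push_cast
                  ring
              _ ≤ (p : ℝ) ^ 2 := by gcongr
              _ = ((p ^ 2 : ℕ) : ℝ) := by push_cast; ring
        · rw [mem_curvePairs]
          refine ⟨w, ?_, k, ?_, ?_⟩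
          · rw [mem_radSet]
            refine ⟨⟨hw, (Nat.le_of_dvd (by omega) hwn).trans hn1.2⟩, ?_⟩
            have h2 : (rad w : ℝ) * Y ^ (η * cell η Y p - η) ≤ Y ^ u3 := by
              calc (rad w : ℝ) * Y ^ (η * cell η Y p - η) ≤ (rad w : ℝ) * p := by gcongr
                _ = (rad n : ℝ) := by rw [hrad]; push_cast; ring
                _ ≤ Y ^ u3 := hradn
            have h3 : Y ^ (u3 - η * cell η Y p + η) * Y ^ (η * cell η Y p - η) = Y ^ u3 := by
              rw [← Real.rpow_add hY0]; congr 1; ring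
            rw [← h3] at h2
            exact le_of_mul_le_mul_right h2 (by positivity)
          · rw [mem_Icc]
            refine ⟨hk2, ?_⟩
            rw [hk0]
            apply Nat.le_floor
            rw [le_div_iff₀ hlog2]
            have h1 : ((2 : ℝ)) ^ k ≤ Y ^ K := by
              calc (2 : ℝ) ^ k ≤ (p : ℝ) ^ k := by
                    gcongr
                    exact_mod_cast hp.two_le
                _ ≤ (n : ℝ) := by exact_mod_cast Nat.le_of_dvd (by omega) hpkn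
                _ ≤ Y ^ K := hnX.trans hXle
            have h2 := Real.log_le_log (by positivity) h1
            rw [Real.log_pow, Real.log_rpow hY0] at h2
            exact h2
          · rw [curveSet, mem_filter, mem_product]
            refine ⟨⟨hmx, hmy⟩, p, hp1, ?_⟩
            simp only
            rw [mul_comm, ← hnw]
            exact hRel'
    · left
      push Not at hbig
      obtain ⟨α, hαn, hαp, hαT, hαS⟩ := exists_pow2_divisor (n := n) (by omega)
        (S := Y ^ (e / 40)) (T := Y ^ (e / 2)) (Real.one_le_rpow hY1' (by positivity))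
        (Real.one_le_rpow hY1' (by positivity)) hnT hbig
      rw [hQ1, mem_filter]
      refine ⟨ht, ?_⟩
      rw [mem_alphaPairs]
      have hα1 : 1 ≤ α := Nat.pos_of_dvd_of_pos hαn (by omega)
      refine ⟨α, ?_, hαT, mem_pairSet_of_dvd hmx hmy hRel' hcx hαn⟩
      rw [mem_radSet]
      refine ⟨⟨hα1, (Nat.le_of_dvd (by omega) hαn).trans hn1.2⟩, ?_⟩
      have h1 : (rad α : ℝ) ^ 2 ≤ (Y ^ (e / 4 + e / 40)) ^ 2 := by
        calc (rad α : ℝ) ^ 2 ≤ (α : ℝ) := by exact_mod_cast hαp.rad_sq_le hα1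
          _ ≤ Y ^ (e / 2) * (Y ^ (e / 40)) ^ 2 := hαS
          _ = (Y ^ (e / 4 + e / 40)) ^ 2 := by
              rw [← Real.rpow_natCast, ← Real.rpow_mul hY0.le, ← Real.rpow_natCast,
                ← Real.rpow_mul hY0.le, ← Real.rpow_add hY0]
              congr 1
              push_cast
              ring
      exact le_of_sq_le_sq h1 (by positivity)
  -- counting
  have hQ1c : (Q1.card : ℝ) ≤ 3 * C2 * Y ^ θ := by
    have h1 := proj_card_xy Q1 (fun t ht => hRel t (mem_filter.1 ht).1)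
      (alphaPairs K Y (e / 2) (e / 4 + e / 40) u1 u2) (fun t ht => (mem_filter.1 ht).2)
    have h2 := hAl (e / 2) (e / 4 + e / 40) (by positivity) (by linarith)
    calc (Q1.card : ℝ) ≤ 3 * ((alphaPairs K Y (e / 2) (e / 4 + e / 40) u1 u2).card : ℝ) := by
          exact_mod_cast h1
      _ ≤ 3 * (C2 * Y ^ (e / 4 + e / 40 + (u1 + u2 + δ - 3 / 4 * (e / 2)) + 6 * δ)) := by gcongr
      _ ≤ 3 * (C2 * Y ^ θ) := by
          apply mul_le_mul_of_nonneg_left _ (by norm_num)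
          apply mul_le_mul_of_nonneg_left _ (by linarith)
          apply Real.rpow_le_rpow_of_exponent_le hY1'
          rw [hδ, hθ]
          rw [hη] at hsum
          linarith
      _ = _ := by ring
  have hQ2c : ∀ s ∈ range N, ((Q2 s).card : ℝ) ≤ 3 * (C2 + C3 * C4) * Y ^ θ := by
    intro s _
    rcases (Q2 s).eq_empty_or_nonempty with hemp | ⟨t0, ht0⟩
    · rw [hemp, card_empty, Nat.cast_zero]
      positivity
    have hs40 : e / 40 ≤ η * s := (mem_filter.1 ht0).2.1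
    set R := alphaPairs K Y (sg s) (η * s) u1 u2 ∩
      curvePairs K Y (u3 - η * s + η) u1 u2 k0 with hR
    have h1 : (Q2 s).card ≤ 3 * R.card :=
      proj_card_xy (Q2 s) (fun t ht => hRel t (mem_filter.1 ht).1) R
        (fun t ht => (mem_filter.1 ht).2.2)
    have h2 : (R.card : ℝ) ≤ (C2 + C3 * C4) * Y ^ θ := by
      rcases le_or_gt (η * s) (215 / 1000) with h | h
      · have hsg0 : 0 < sg s := by
          rw [hsg]
          apply lt_min
          · rw [hη] at hs40 ⊢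
            linarith
          · norm_num
        have hsg1 : sg s ≤ 3 / 10 := min_le_right _ _
        have hnum : η * s + (u1 + u2 + δ - 3 / 4 * sg s) + 6 * δ ≤ θ := by
          rcases min_choice (2 * (η * s) - 2 * η) (3 / 10 : ℝ) with hm | hm
          · have : sg s = 2 * (η * s) - 2 * η := hm
            rw [this, hδ, hθ]
            rw [hη] at hsum hs40 ⊢
            linarith
          · have : sg s = 3 / 10 := hm
            rw [this, hδ, hθ]
            rw [hη] at hsum h ⊢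
            linarith
        calc (R.card : ℝ) ≤ ((alphaPairs K Y (sg s) (η * s) u1 u2).card : ℝ) := by
              exact_mod_cast Finset.card_le_card Finset.inter_subset_left
          _ ≤ C2 * Y ^ (η * s + (u1 + u2 + δ - 3 / 4 * sg s) + 6 * δ) := hAl _ _ hsg0 hsg1
          _ ≤ (C2 + C3 * C4) * Y ^ θ := by
              apply mul_le_mul (by linarith) _ (by positivity) (by positivity)
              exact Real.rpow_le_rpow_of_exponent_le hY1' hnum
      · have hmax : max u2 (u1 + u2 / 2) = u1 + u2 / 2 := max_eq_right (by linarith)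
        calc (R.card : ℝ) ≤ ((curvePairs K Y (u3 - η * s + η) u1 u2 k0).card : ℝ) := by
              exact_mod_cast Finset.card_le_card Finset.inter_subset_right
          _ ≤ C3 * k0 * Y ^ ((u3 - η * s + η) + max u2 (u1 + u2 / 2) + 4 * δ) := hCu _
          _ ≤ C3 * (C4 * Y ^ δ) *
              Y ^ ((u3 - η * s + η) + max u2 (u1 + u2 / 2) + 4 * δ) := by gcongr
          _ = (C3 * C4) * Y ^ (δ + ((u3 - η * s + η) + max u2 (u1 + u2 / 2) + 4 * δ)) := by
              rw [Real.rpow_add hY0 δ]; ring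
          _ ≤ (C2 + C3 * C4) * Y ^ θ := by
              apply mul_le_mul (by linarith) _ (by positivity) (by positivity)
              apply Real.rpow_le_rpow_of_exponent_le hY1'
              rw [hmax, hδ, hθ]
              rw [hη] at hsum h ⊢
              linarith
    calc ((Q2 s).card : ℝ) ≤ 3 * (R.card : ℝ) := by exact_mod_cast h1
      _ ≤ 3 * ((C2 + C3 * C4) * Y ^ θ) := by gcongr
      _ = _ := by ring
  have hfin : (Q.card : ℝ) ≤ (Q1.card : ℝ) + ∑ s ∈ range N, ((Q2 s).card : ℝ) := by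
    have h1 : Q.card ≤ Q1.card + ∑ s ∈ range N, (Q2 s).card :=
      (Finset.card_le_card hcover).trans ((Finset.card_union_le _ _).trans
        (Nat.add_le_add_left Finset.card_biUnion_le _))
    exact_mod_cast h1
  calc (Q.card : ℝ) ≤ (Q1.card : ℝ) + ∑ s ∈ range N, ((Q2 s).card : ℝ) := hfin
    _ ≤ 3 * C2 * Y ^ θ + ∑ s ∈ range N, 3 * (C2 + C3 * C4) * Y ^ θ :=
        add_le_add hQ1c (Finset.sum_le_sum hQ2c)
    _ = (3 * C2 + N * (3 * (C2 + C3 * C4))) * Y ^ θ := by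
        rw [Finset.sum_const, nsmul_eq_mul, Finset.card_range]
        ring
    _ ≤ Ct * Y ^ θ := by
        apply mul_le_mul_of_nonneg_right _ hYp.le
        rw [hCt]
        have : 0 ≤ C1 ^ 2 := by positivity
        linarith

end Pool.Agent.Lib.Pabcx
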