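import Pool.Agent.Lib.Pabcx.BoxG
import Pool.Agent.Lib.Pabcv.CoreA

/-!
# Pairs of integers with small radical congruent modulo `α`, general loss
-/

namespace Pool.Agent.Lib.Pabcx

open Finset Pool.Agent.Lib.Pabcv

open Classical in
theorem radEnergyG (K δ : ℝ) (hK0 : 0 < K) (hδ : 0 < δ) :
    ∃ Y0 : ℝ, ∀ Y : ℝ, Y0 ≤ Y → ∀ (α : ℕ) (σ V κ : ℝ), Y ^ σ ≤ α → (α : ℝ) ≤ Y ^ K → 0 ≤ V →
      V + δ ≤ K → LossOK σ (V + δ) κ →
      (radEnergy α ⌊Y ^ K⌋₊ (Y ^ V) : ℝ) ≤ Y ^ (V + κ + 4 * δ) := by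
  classical
  set J : ℕ := ⌈4 * K / δ⌉₊ with hJ
  have hJ1 : 1 ≤ J := by
    rw [hJ]; exact Nat.one_le_iff_ne_zero.2 (Nat.ceil_pos.2 (by positivity)).ne'
  have hJ0 : (0 : ℝ) < J := by exact_mod_cast hJ1
  have hJK : K / ((J : ℝ) + 1) ≤ δ / 4 := by
    have h1 : 4 * K / δ ≤ J := Nat.le_ceil _
    rw [div_le_iff₀ (by positivity)]
    rw [div_le_iff₀ hδ] at h1
    nlinarith
  set h : ℝ := δ / J with hh
  have hh0 : 0 < h := by positivity
  set B : ℕ := ⌊K / h⌋₊ with hB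
  obtain ⟨Y1, hY1⟩ := boxEnergyG J h δ K hh0 hδ hK0
  set σ' : ℝ := δ / (8 * K) with hσ'
  obtain ⟨C, hC1, hC⟩ := card_radSet_le σ' (by positivity)
  set D : ℝ := (C * ((B : ℝ) + 1) ^ J) ^ 2 with hD
  have hD1 : 1 ≤ D := by
    rw [hD]
    apply one_le_pow₀
    have : 1 ≤ ((B : ℝ) + 1) ^ J := one_le_pow₀ (by linarith [Nat.cast_nonneg (α := ℝ) B])
    nlinarith
  refine ⟨max (max 2 Y1) (D ^ (4 / δ)), ?_⟩
  intro Y hY α σ V κ hα1 hα2 hV hVK hκ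
  have hY2 : 2 ≤ Y := (le_max_left _ _).trans ((le_max_left _ _).trans hY)
  have hY0 : 0 < Y := by linarith
  have hY1' : 1 ≤ Y := by linarith
  have hYY1 : Y1 ≤ Y := (le_max_right _ _).trans ((le_max_left _ _).trans hY)
  have hYD : D ≤ Y ^ (δ / 4) := by
    have h1 : D ^ (4 / δ) ≤ Y := (le_max_right _ _).trans hY
    have h2 : D = (D ^ (4 / δ)) ^ (δ / 4) := by
      rw [← Real.rpow_mul (by positivity)]
      rw [show 4 / δ * (δ / 4) = 1 by field_simp, Real.rpow_one]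
    rw [h2]
    exact Real.rpow_le_rpow (by positivity) h1 (by positivity)
  have hlogY : 0 < Real.log Y := Real.log_pos (by linarith)
  have hα0 : 1 ≤ α := by
    have : (0 : ℝ) < α := lt_of_lt_of_le (Real.rpow_pos_of_pos hY0 _) hα1
    have h' : 0 < α := by exact_mod_cast this
    exact h'
  have : NeZero α := ⟨by omega⟩
  set X : ℕ := ⌊Y ^ K⌋₊ with hX
  have hXle : (X : ℝ) ≤ Y ^ K := Nat.floor_le (by positivity)
  set W : ℝ := V + δ with hW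
  set Zt : ℝ := Y ^ (K / ((J : ℝ) + 1)) with hZt
  -- restricted index set
  set P : Finset (ℕ × (Fin J → ℕ)) :=
    (idx J X B Zt).filter (fun i => h * ∑ j, (i.2 j : ℝ) ≤ W) with hP
  set Bx : (ℕ × (Fin J → ℕ)) → Finset (Fin J → ℕ) := fun i =>
    Fintype.piFinset (fun j => Finset.Icc 1 ⌊Y ^ (h * i.2 j)⌋₊) with hBx
  set g : (ℕ × (Fin J → ℕ)) → (Fin J → ℕ) → ℕ := fun i s =>
    i.1 * ∏ j, s j ^ ((j : ℕ) + 1) with hg
  have hcov : ∀ x ∈ radSet X (Y ^ V), IsUnit ((x : ℕ) : ZMod α) →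
      ∃ i ∈ P, ∃ s ∈ Bx i, g i s = x := by
    intro x hx _
    rw [mem_radSet] at hx
    obtain ⟨⟨hx1, hx2⟩, hx3⟩ := hx
    obtain ⟨t, s, ht1, hs1, hxts, hrad, hradt⟩ := decomp J x hx1
    have htx : t ≤ x := by
      rw [hxts]
      exact Nat.le_mul_of_pos_right _ (Finset.prod_pos fun j _ => by
        have := hs1 j; positivity)
    have hprod : ((∏ j, s j : ℕ) : ℝ) ≤ Y ^ V := by
      refine le_trans ?_ hx3
      rw [hrad]
      have := Nat.le_mul_of_pos_left (∏ j, s j) (rad_pos t)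
      exact_mod_cast this
    set ν : Fin J → ℕ := fun j => ⌈Real.log (s j) / (h * Real.log Y)⌉₊ with hν
    have hs0 : ∀ j, (1 : ℝ) ≤ s j := fun j => by exact_mod_cast hs1 j
    have hνle : ∀ j, h * (ν j : ℝ) ≤ Real.log (s j) / Real.log Y + h := by
      intro j
      have h1 : (ν j : ℝ) < Real.log (s j) / (h * Real.log Y) + 1 :=
        Nat.ceil_lt_add_one (by have := Real.log_nonneg (hs0 j); positivity)
      have h2 : h * (ν j : ℝ) ≤ h * (Real.log (s j) / (h * Real.log Y) + 1) :=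
        mul_le_mul_of_nonneg_left h1.le hh0.le
      refine h2.trans (le_of_eq ?_)
      field_simp
    have hνge : ∀ j, Real.log (s j) ≤ h * ν j * Real.log Y := by
      intro j
      have h1 : Real.log (s j) / (h * Real.log Y) ≤ ν j := Nat.le_ceil _
      rw [div_le_iff₀ (by positivity)] at h1
      linarith
    have hsum : h * ∑ j, (ν j : ℝ) ≤ W := by
      rw [Finset.mul_sum]
      refine (Finset.sum_le_sum fun j _ => hνle j).trans ?_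
      rw [Finset.sum_add_distrib, ← Finset.sum_div, Finset.sum_const, Finset.card_univ,
        Fintype.card_fin, nsmul_eq_mul]
      have h1 : ∑ j, Real.log (s j) = Real.log ((∏ j, s j : ℕ) : ℝ) := by
        push_cast
        rw [Real.log_prod (fun j _ => by have := hs0 j; linarith)]
      rw [h1]
      have h2 : Real.log ((∏ j, s j : ℕ) : ℝ) ≤ V * Real.log Y := by
        rw [← Real.log_rpow hY0]
        apply Real.log_le_log _ hprod
        have : 0 < ∏ j, s j := Finset.prod_pos fun j _ => hs1 j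
        exact_mod_cast this
      have h3 : Real.log ((∏ j, s j : ℕ) : ℝ) / Real.log Y ≤ V := by
        rw [div_le_iff₀ hlogY]; exact h2
      have h4 : (J : ℝ) * h = δ := by rw [hh]; field_simp
      rw [h4, hW]
      linarith
    refine ⟨(t, ν), ?_, s, ?_, ?_⟩
    · rw [hP, mem_filter]
      refine ⟨?_, hsum⟩
      rw [idx, mem_product]
      refine ⟨?_, ?_⟩
      · rw [mem_radSet]
        refine ⟨⟨ht1, htx.trans hx2⟩, ?_⟩
        rw [hZt]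
        have h1 : (rad t : ℝ) ^ (J + 1) ≤ Y ^ K := by
          calc (rad t : ℝ) ^ (J + 1) ≤ t := by exact_mod_cast hradt
            _ ≤ X := by exact_mod_cast htx.trans hx2
            _ ≤ Y ^ K := hXle
        calc (rad t : ℝ) = ((rad t : ℝ) ^ (J + 1)) ^ (1 / ((J : ℝ) + 1)) := by
              rw [← Real.rpow_natCast, ← Real.rpow_mul (Nat.cast_nonneg _)]
              push_cast
              rw [mul_one_div_cancel (by positivity), Real.rpow_one]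
          _ ≤ (Y ^ K) ^ (1 / ((J : ℝ) + 1)) :=
              Real.rpow_le_rpow (by positivity) h1 (by positivity)
          _ = Y ^ (K / ((J : ℝ) + 1)) := by
              rw [← Real.rpow_mul hY0.le]; ring_nf
      · rw [Fintype.mem_piFinset]
        intro j
        rw [mem_range, Nat.lt_succ_iff, hB]
        apply Nat.le_floor
        rw [le_div_iff₀ hh0]
        have h1 : (ν j : ℝ) ≤ ∑ j, (ν j : ℝ) :=
          Finset.single_le_sum (f := fun j => (ν j : ℝ)) (fun i _ => Nat.cast_nonneg _)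
            (mem_univ j)
        have h2 : h * (ν j : ℝ) ≤ W := (mul_le_mul_of_nonneg_left h1 hh0.le).trans hsum
        linarith
    · rw [hBx, Fintype.mem_piFinset]
      intro j
      rw [mem_Icc]
      refine ⟨hs1 j, Nat.le_floor ?_⟩
      have h1 : Real.log (s j) ≤ Real.log (Y ^ (h * ν j)) := by
        rw [Real.log_rpow hY0]; exact hνge j
      exact (Real.log_le_log_iff (by have := hs0 j; linarith) (by positivity)).1 h1
    · simp only [hg]; exact hxts.symm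
  set E : ℝ := Y ^ (W + κ + δ) with hE
  have hEb : ∀ i ∈ P, (∑ u : ZMod α, if IsUnit u then
      (((Bx i).filter (fun s => ((g i s : ℕ) : ZMod α) = u)).card : ℝ) ^ 2 else 0) ≤ E := by
    intro i hi
    rw [hP, mem_filter] at hi
    have h1 := box_energy_twist α (fun j : Fin J => (j : ℕ) + 1)
      (fun j => ⌊Y ^ (h * i.2 j)⌋₊) i.1
    refine le_trans ?_ (h1.trans (hY1 Y hYY1 i.2 α σ W κ hα1 hα2 hi.2 hVK hκ))
    refine le_of_eq (Finset.sum_congr rfl fun u _ => ?_)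
    by_cases hu : IsUnit u
    · simp only [hu, if_true]
      refine congrArg (fun n : ℕ => (n : ℝ) ^ 2) (congrArg Finset.card ?_)
      ext s
      simp only [mem_filter, hBx, hg, Fintype.mem_piFinset]
    · simp only [hu, if_false]
  have hmain := energy_cover α (radSet X (Y ^ V)) (fun x : ℕ => (x : ZMod α)) P Bx g hcov E
    (by
      intro i hi
      exact hEb i hi)
  have henergy : (radEnergy α X (Y ^ V) : ℝ) = ∑ u : ZMod α, if IsUnit u then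
      (((radSet X (Y ^ V)).filter (fun s : ℕ => (s : ZMod α) = u)).card : ℝ) ^ 2 else 0 := by
    have h1 := energy_eq α (radSet X (Y ^ V)) (fun x : ℕ => (x : ZMod α))
    have h2 : (radEnergy α X (Y ^ V)) = ∑ u : ZMod α, if IsUnit u then
      ((radSet X (Y ^ V)).filter (fun s : ℕ => (s : ZMod α) = u)).card ^ 2 else 0 := by
      rw [radEnergy]
      have h3 : (∑ u : ZMod α, if IsUnit u then
          ((radSet X (Y ^ V)).filter (fun s : ℕ => (s : ZMod α) = u)).card ^ 2 else 0) =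
          ∑ u : ZMod α, (by classical exact (if IsUnit u then
          ((radSet X (Y ^ V)).filter (fun s : ℕ => (s : ZMod α) = u)).card ^ 2 else 0)) := by
        refine Finset.sum_congr rfl fun u _ => ?_
        by_cases hu : IsUnit u
        · simp only [hu, if_true]
        · simp only [hu, if_false]
      rw [h3]
      refine Eq.trans ?_ h1
      refine congrArg Finset.card ?_
      ext s
      simp only [mem_filter]
    rw [h2]
    push_cast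
    rfl
  rw [henergy]
  refine hmain.trans ?_
  -- numerics
  have hPc : (P.card : ℝ) ≤ C * ((B : ℝ) + 1) ^ J * Y ^ (3 * δ / 8) := by
    have h1 : P.card ≤ (radSet X Zt).card * (B + 1) ^ J := by
      rw [← idx_card]
      exact Finset.card_filter_le _ _
    have h2 : ((radSet X Zt).card : ℝ) ≤ C * Zt * (X : ℝ) ^ σ' := hC X Zt (by positivity)
    have h3 : Zt ≤ Y ^ (δ / 4) := Real.rpow_le_rpow_of_exponent_le hY1' hJK
    have h4 : (X : ℝ) ^ σ' ≤ Y ^ (δ / 8) := by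
      calc (X : ℝ) ^ σ' ≤ (Y ^ K) ^ σ' :=
            Real.rpow_le_rpow (Nat.cast_nonneg _) hXle (by positivity)
        _ = Y ^ (δ / 8) := by
            rw [← Real.rpow_mul hY0.le, hσ']
            congr 1
            field_simp
    calc (P.card : ℝ) ≤ (radSet X Zt).card * ((B : ℝ) + 1) ^ J := by exact_mod_cast h1
      _ ≤ (C * Zt * (X : ℝ) ^ σ') * ((B : ℝ) + 1) ^ J := by gcongr
      _ ≤ (C * Y ^ (δ / 4) * Y ^ (δ / 8)) * ((B : ℝ) + 1) ^ J := by gcongr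
      _ = C * ((B : ℝ) + 1) ^ J * (Y ^ (δ / 4) * Y ^ (δ / 8)) := by ring
      _ = _ := by
          rw [← Real.rpow_add hY0]
          congr 2
          ring
  calc (P.card : ℝ) ^ 2 * E ≤ (C * ((B : ℝ) + 1) ^ J * Y ^ (3 * δ / 8)) ^ 2 * E := by gcongr
    _ = D * (Y ^ (3 * δ / 8)) ^ 2 * E := by rw [mul_pow, hD]
    _ ≤ Y ^ (δ / 4) * (Y ^ (3 * δ / 8)) ^ 2 * E := by gcongr
    _ = Y ^ (δ / 4 + 3 * δ / 8 + 3 * δ / 8 + (W + κ + δ)) := by
        rw [hE, Real.rpow_add hY0 (δ / 4 + 3 * δ / 8 + 3 * δ / 8) (W + κ + δ),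
          Real.rpow_add hY0 (δ / 4 + 3 * δ / 8) (3 * δ / 8), Real.rpow_add hY0 (δ / 4) (3 * δ / 8),
          pow_two, mul_assoc (Y ^ (δ / 4)) (Y ^ (3 * δ / 8)) (Y ^ (3 * δ / 8))]
    _ ≤ Y ^ (V + κ + 4 * δ) := by
        apply Real.rpow_le_rpow_of_exponent_le hY1'
        rw [hW]
        linarith

theorem pairSetG (K δ : ℝ) (hK0 : 0 < K) (hδ : 0 < δ) :
    ∃ Y0 : ℝ, ∀ Y : ℝ, Y0 ≤ Y → ∀ (α : ℕ) (σ V₁ V₂ κ₁ κ₂ : ℝ), Y ^ σ ≤ α → (α : ℝ) ≤ Y ^ K →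
      0 ≤ V₁ → 0 ≤ V₂ → V₁ + δ ≤ K → V₂ + δ ≤ K →
      LossOK σ (V₁ + δ) κ₁ → LossOK σ (V₂ + δ) κ₂ →
      ((pairSet α ⌊Y ^ K⌋₊ (Y ^ V₁) (Y ^ V₂)).card : ℝ) ≤
        Y ^ ((V₁ + κ₁ + V₂ + κ₂) / 2 + 5 * δ) := by
  obtain ⟨Y1, hY1⟩ := radEnergyG K δ hK0 hδ
  refine ⟨max (max 1 Y1) ((2 : ℝ) ^ (1 / δ)), ?_⟩
  intro Y hY α σ V₁ V₂ κ₁ κ₂ hα1 hα2 hV1 hV2 hVK1 hVK2 hc1 hc2
  have hY1' : 1 ≤ Y := (le_max_left _ _).trans ((le_max_left _ _).trans hY)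
  have hY0 : 0 < Y := by linarith
  have hYY1 : Y1 ≤ Y := (le_max_right _ _).trans ((le_max_left _ _).trans hY)
  have hY2 : 2 ≤ Y ^ δ := by
    have h1 : (2 : ℝ) ^ (1 / δ) ≤ Y := (le_max_right _ _).trans hY
    have h2 : (2 : ℝ) = ((2 : ℝ) ^ (1 / δ)) ^ δ := by
      rw [← Real.rpow_mul (by positivity)]
      rw [show 1 / δ * δ = 1 by field_simp, Real.rpow_one]
    calc (2 : ℝ) = ((2 : ℝ) ^ (1 / δ)) ^ δ := h2
      _ ≤ Y ^ δ := Real.rpow_le_rpow (by positivity) h1 hδ.le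
  have hα0 : 1 ≤ α := by
    have : (0 : ℝ) < α := lt_of_lt_of_le (Real.rpow_pos_of_pos hY0 _) hα1
    have h' : 0 < α := by exact_mod_cast this
    exact h'
  have e1 := hY1 Y hYY1 α σ V₁ κ₁ hα1 hα2 hV1 hVK1 hc1
  have e2 := hY1 Y hYY1 α σ V₂ κ₂ hα1 hα2 hV2 hVK2 hc2
  have hs : ∀ s : ℝ, √(Y ^ s) = Y ^ (s / 2) := by
    intro s
    rw [Real.sqrt_eq_rpow, ← Real.rpow_mul hY0.le]
    ring_nf
  calc ((pairSet α ⌊Y ^ K⌋₊ (Y ^ V₁) (Y ^ V₂)).card : ℝ)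
      ≤ 2 * (√(radEnergy α ⌊Y ^ K⌋₊ (Y ^ V₁) : ℝ) * √(radEnergy α ⌊Y ^ K⌋₊ (Y ^ V₂) : ℝ)) :=
        pairSet_card_le α _ hα0 _ _
    _ ≤ Y ^ δ * (√(Y ^ (V₁ + κ₁ + 4 * δ)) * √(Y ^ (V₂ + κ₂ + 4 * δ))) := by
        gcongr
    _ = Y ^ ((V₁ + κ₁ + V₂ + κ₂) / 2 + 5 * δ) := by
        rw [hs, hs, ← Real.rpow_add hY0, ← Real.rpow_add hY0]
        congr 1
        ring

theorem alphaPairsG (K δ : ℝ) (hK0 : 0 < K) (hδ : 0 < δ) :
    ∃ C Y0 : ℝ, 1 ≤ C ∧ ∀ Y : ℝ, Y0 ≤ Y → ∀ (σ ρ V₁ V₂ κ₁ κ₂ : ℝ),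
      0 ≤ V₁ → 0 ≤ V₂ → V₁ + δ ≤ K → V₂ + δ ≤ K →
      LossOK σ (V₁ + δ) κ₁ → LossOK σ (V₂ + δ) κ₂ →
      ((alphaPairs K Y σ ρ V₁ V₂).card : ℝ) ≤ C * Y ^ (ρ + (V₁ + κ₁ + V₂ + κ₂) / 2 + 6 * δ) := by
  classical
  obtain ⟨C, hC1, hC⟩ := radSet_card_pow K δ hK0 hδ
  obtain ⟨Y1, hY1⟩ := pairSetG K δ hK0 hδ
  refine ⟨C, max 1 Y1, hC1, ?_⟩
  intro Y hY σ ρ V₁ V₂ κ₁ κ₂ hV1 hV2 hVK1 hVK2 hc1 hc2
  have hY1' : 1 ≤ Y := (le_max_left _ _).trans hY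
  have hYY1 : Y1 ≤ Y := (le_max_right _ _).trans hY
  have hY0 : 0 < Y := by linarith
  set S := (radSet ⌊Y ^ K⌋₊ (Y ^ ρ)).filter (fun α : ℕ => Y ^ σ ≤ (α : ℝ)) with hS
  have h1 : ∀ α ∈ S, ((pairSet α ⌊Y ^ K⌋₊ (Y ^ V₁) (Y ^ V₂)).card : ℝ) ≤
      Y ^ ((V₁ + κ₁ + V₂ + κ₂) / 2 + 5 * δ) := by
    intro α hα
    rw [hS, mem_filter, mem_radSet] at hα
    refine hY1 Y hYY1 α σ V₁ V₂ κ₁ κ₂ hα.2 ?_ hV1 hV2 hVK1 hVK2 hc1 hc2
    calc (α : ℝ) ≤ ((⌊Y ^ K⌋₊ : ℕ) : ℝ) := by exact_mod_cast hα.1.1.2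
      _ ≤ Y ^ K := rpow_floor_le hY0.le
  have h2 : ((alphaPairs K Y σ ρ V₁ V₂).card : ℝ) ≤
      ∑ α ∈ S, ((pairSet α ⌊Y ^ K⌋₊ (Y ^ V₁) (Y ^ V₂)).card : ℝ) := by
    have : (alphaPairs K Y σ ρ V₁ V₂).card ≤
        ∑ α ∈ S, (pairSet α ⌊Y ^ K⌋₊ (Y ^ V₁) (Y ^ V₂)).card := by
      rw [alphaPairs]
      exact Finset.card_biUnion_le
    exact_mod_cast this
  have h3 : (S.card : ℝ) ≤ C * Y ^ (ρ + δ) := by
    refine le_trans ?_ (hC Y ρ hY1')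
    exact_mod_cast Finset.card_filter_le _ _
  calc ((alphaPairs K Y σ ρ V₁ V₂).card : ℝ)
      ≤ ∑ α ∈ S, ((pairSet α ⌊Y ^ K⌋₊ (Y ^ V₁) (Y ^ V₂)).card : ℝ) := h2
    _ ≤ ∑ α ∈ S, Y ^ ((V₁ + κ₁ + V₂ + κ₂) / 2 + 5 * δ) := Finset.sum_le_sum h1
    _ = (S.card : ℝ) * Y ^ ((V₁ + κ₁ + V₂ + κ₂) / 2 + 5 * δ) := by
        rw [Finset.sum_const, nsmul_eq_mul]
    _ ≤ (C * Y ^ (ρ + δ)) * Y ^ ((V₁ + κ₁ + V₂ + κ₂) / 2 + 5 * δ) := by gcongr
    _ = C * Y ^ (ρ + (V₁ + κ₁ + V₂ + κ₂) / 2 + 6 * δ) := by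
        rw [mul_assoc, ← Real.rpow_add hY0]
        congr 2
        ring

end Pool.Agent.Lib.Pabcx
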